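import Pool.Agent.ASD.Stmts8

/-!
# Squad ASD, row ABD: abelian groups `E₀` act freely or diagonally
-/

noncomputable section

namespace Pool.Agent.PP.SD.H16

open Pool.Agent.PP.SO

/-- the homomorphism `w ↦ σ w w⁻¹` -/
def dh {V₀ : Type} [CommGroup V₀] (σ : MulAut V₀) : V₀ →* V₀ where
  toFun w := σ w * w⁻¹
  map_one' := by simp
  map_mul' a b := by
    rw [map_mul, mul_inv]
    exact mul_mul_mul_comm _ _ _ _

theorem dh_apply {V₀ : Type} [CommGroup V₀] (σ : MulAut V₀) (w : V₀) : dh σ w = σ w * w⁻¹ := rfl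

theorem mem_ker_dh {V₀ : Type} [CommGroup V₀] (σ : MulAut V₀) (w : V₀) :
    w ∈ (dh σ).ker ↔ σ w = w := by
  rw [MonoidHom.mem_ker, dh_apply, mul_inv_eq_one]

theorem abd : AbdStmt := by
  intro ℓ _ V₀ _ _ E₀ hFq hcomm
  have hp : ℓ.Prime := Fact.out
  by_cases hfr : ∀ σ ∈ E₀, σ ≠ 1 → ∀ v : V₀, σ v = v → v = 1
  · exact Or.inl ⟨hFq.ex, hFq.cd, hfr⟩
  right
  push Not at hfr
  obtain ⟨σ, hσ, hσ1, v, hv, hv1⟩ := hfr
  set C : Subgroup V₀ := (dh σ).ker with hC
  set D : Subgroup V₀ := (dh σ).range with hD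
  have hmC : ∀ w, w ∈ C ↔ σ w = w := fun w => mem_ker_dh σ w
  have hmul : Nat.card C * Nat.card D = ℓ ^ 2 := by
    have h1 := Subgroup.index_ker (dh σ)
    have h2 := Subgroup.card_mul_index (dh σ).ker
    rw [h1, hFq.cd] at h2
    exact h2
  have hinf : C ⊓ D = ⊥ := by
    rw [Subgroup.eq_bot_iff_forall]
    intro w hw
    obtain ⟨hw1, hw2⟩ := Subgroup.mem_inf.1 hw
    obtain ⟨u, hu⟩ := MonoidHom.mem_range.1 hw2
    have hwσ := (hmC w).1 hw1
    have hu1 : σ u = w * u := by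
      rw [← hu, dh_apply, inv_mul_cancel_right]
    have hpow : ∀ n : ℕ, (σ ^ n) u = w ^ n * u := by
      intro n
      induction n with
      | zero => rw [pow_zero, pow_zero, one_mul]; rfl
      | succ n ih =>
        rw [pow_succ', MulAut.mul_apply, ih, map_mul, map_pow, hwσ, hu1, pow_succ, mul_assoc]
    have h3 := hpow (orderOf σ)
    rw [pow_orderOf_eq_one] at h3
    have h4 : w ^ orderOf σ = 1 := by
      have h5 : (1 : MulAut V₀) u = u := rfl
      rw [h5] at h3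
      exact mul_eq_right.1 h3.symm
    have h6 : orderOf σ ∣ Nat.card E₀ := by
      have := orderOf_dvd_natCard (⟨σ, hσ⟩ : E₀)
      rwa [Subgroup.orderOf_mk] at this
    have h7 : Nat.Coprime ℓ (orderOf σ) := by
      rw [Nat.Prime.coprime_iff_not_dvd hp]
      exact fun h => hFq.cp (h.trans h6)
    have h8 : orderOf w ∣ ℓ := orderOf_dvd_of_pow_eq_one (hFq.ex w)
    have h9 : orderOf w ∣ orderOf σ := orderOf_dvd_of_pow_eq_one h4
    have h10 : orderOf w ∣ 1 := by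
      rw [← h7.gcd_eq_one]
      exact Nat.dvd_gcd h8 h9
    exact orderOf_eq_one_iff.1 (Nat.dvd_one.1 h10)
  have hCne : C ≠ ⊥ := by
    intro h
    have h1 : v ∈ C := (hmC v).2 hv
    rw [h, Subgroup.mem_bot] at h1
    exact hv1 h1
  have hDne : D ≠ ⊥ := by
    intro h
    apply hσ1
    ext w
    have h1 : dh σ w ∈ D := ⟨w, rfl⟩
    rw [h, Subgroup.mem_bot, dh_apply, mul_inv_eq_one] at h1
    exact h1
  have hc1 : Nat.card C ≠ 1 := fun h => hCne (Subgroup.card_eq_one.1 h)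
  have hd1 : Nat.card D ≠ 1 := fun h => hDne (Subgroup.card_eq_one.1 h)
  have hcC : Nat.card C = ℓ := by
    obtain ⟨k, hk2, hk⟩ := (Nat.dvd_prime_pow hp).1 (Dvd.intro _ hmul)
    interval_cases k
    · exact absurd hk (by rw [pow_zero]; exact hc1)
    · rwa [pow_one] at hk
    · exfalso
      apply hd1
      rw [hk] at hmul
      exact Nat.eq_of_mul_eq_mul_left (pow_pos hp.pos 2) (by rw [hmul, mul_one])
  have hcD : Nat.card D = ℓ := by
    rw [hcC, pow_two] at hmul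
    exact Nat.eq_of_mul_eq_mul_left hp.pos hmul
  have hsC : ∀ τ ∈ E₀, ∀ w ∈ C, τ w ∈ C := by
    intro τ hτ w hw
    rw [hmC] at hw ⊢
    have h1 : (σ * τ) w = (τ * σ) w := by rw [hcomm σ hσ τ hτ]
    rw [MulAut.mul_apply, MulAut.mul_apply, hw] at h1
    exact h1
  have hsD : ∀ τ ∈ E₀, ∀ w ∈ D, τ w ∈ D := by
    rintro τ hτ _ ⟨u, rfl⟩
    refine ⟨τ u, ?_⟩
    have h1 : (σ * τ) u = (τ * σ) u := by rw [hcomm σ hσ τ hτ]
    rw [MulAut.mul_apply, MulAut.mul_apply] at h1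
    rw [dh_apply, dh_apply, map_mul, map_inv, h1]
  by_cases hact : ∃ τ ∈ E₀, ∃ w ∈ C, τ w ≠ w
  · exact ⟨C, D, { toFq := hFq, c1 := hcC, c2 := hcD, ds := hinf, s1 := hsC, s2 := hsD,
                   nt := hact, cs := Or.inl ⟨σ, hσ, hσ1, fun w hw => (hmC w).1 hw⟩ }⟩
  · push Not at hact
    refine ⟨D, C, { toFq := hFq, c1 := hcD, c2 := hcC, ds := by rw [inf_comm]; exact hinf,
                    s1 := hsD, s2 := hsC, nt := ⟨σ, hσ, ?_⟩, cs := Or.inr hact }⟩
    by_contra hcon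
    push Not at hcon
    apply hDne
    have h1 : D ≤ C := fun w hw => (hmC w).2 (hcon w hw)
    rw [← inf_eq_right.2 h1]
    exact hinf

end Pool.Agent.PP.SD.H16
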