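import Pool.Agent.ASD.Stmts5
import Pool.Agent.Helper90_ASO.CPG

/-!
# Squad ASD, row T5B: the numbers `T5` have the denominator `ℓ ^ 2`
-/

open scoped BigOperators

noncomputable section

namespace Pool.Agent.PP.SD.H16

open Pool.Agent.Helper51_AWC Pool.Agent.Helper79_WRA Pool.Agent.PP Pool.Agent.PP.KF
open Pool.Agent.PP.K9 Pool.Agent.PP.K9.H97 Pool.Agent.PP.H75 Pool.Agent.PP.T3 Pool.Agent.PP.SO
open Pool.Agent.PP.SO.H90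

attribute [local instance] Ideal.Quotient.field

theorem t5b (tfa : TfaStmt) (tfn : TfnStmt) (tfh : TfhStmt) : T5bStmt := by
  intro ℓ _ M _ hM hℓ V₀ G _ _ _ _ E₀ hFq B hB n m r hr hn hPE ρ₁ ρ₂ x₁ x₂ c d F₁₃ F₁₂ K
    h1 h2 hFY κ w σ hw hκ
  have hp : ℓ.Prime := Fact.out
  have hl0 : (ℓ : ℂ) ≠ 0 := by exact_mod_cast hp.ne_zero
  have hT5 := tfa ℓ M hM hℓ V₀ G E₀ hFq B hB.toSb n m r hr hn hPE ρ₁ ρ₂ x₁ x₂ c d F₁₃ F₁₂ K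
    h1 h2 hFY κ w σ hw hκ
  have hcard : Nat.card (Subgroup.zpowers w) = ℓ := by
    rw [Nat.card_zpowers, orderOf_eq_prime (hFq.ex w) hw]
  have hL := tfh ℓ M hM hℓ V₀ G E₀ hFq B hB.toSb (Subgroup.zpowers w) κ hcard hκ
  have hnI : ∀ i, nI ℓ B m κ w i ∈ RM M := fun i =>
    (tfn ℓ M hM hℓ V₀ G E₀ hFq B hB n m r hr hn hPE κ w hw hκ).1 i
  have hlM : (ℓ : ℂ) ∈ RM M := (rr_nat (M := M) ℓ).1
  have h12 : (12 : ℂ) ∈ RM M := by exact_mod_cast (rr_nat (M := M) 12).1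
  rw [hT5, mul_add, Finset.mul_sum]
  refine add_mem ?_ (sum_mem fun i hi => ?_)
  · have e : (ℓ : ℂ) ^ 2 * (-(((x₁ (κ * w)⁻¹ * x₂ (σ⁻¹ (κ * w))⁻¹ : ℤ) : ℂ) / ℓ ^ 2) *
        L1A B (Subgroup.zpowers w) κ) =
        -(((x₁ (κ * w)⁻¹ * x₂ (σ⁻¹ (κ * w))⁻¹ : ℤ) : ℂ) *
          ((ℓ : ℂ) * (L1A B (Subgroup.zpowers w) κ / ℓ))) := by
      field_simp
    rw [e]
    exact neg_mem (mul_mem (rr_int (M := M) _).1 (mul_mem hlM hL))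
  · have hi' : ¬ ℓ ∣ i := by
      intro h
      rw [Finset.mem_Icc] at hi
      have := Nat.le_of_dvd (by omega) h
      have := hp.pos
      omega
    have hi0 : (i : ℂ) ≠ 0 := by
      intro h
      apply hi'
      have : i = 0 := by exact_mod_cast h
      rw [this]
      exact dvd_zero _
    obtain ⟨z, hz, h⟩ := hFY.np (κ * w)⁻¹ (σ⁻¹ (κ * w))⁻¹ i hi'
    rw [h]
    have e : (ℓ : ℂ) ^ 2 * (((x₁ c⁻¹ * x₂ d⁻¹ : ℤ) / (ℓ : ℚ) ^ 2 -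
          12 * (x₁ (κ * w)⁻¹ * x₂ (σ⁻¹ (κ * w))⁻¹ : ℤ) / ((ℓ : ℚ) ^ 2 * i) + z / ℓ -
          (x₁ c⁻¹ * x₂ d⁻¹ : ℤ) / (ℓ : ℚ) ^ 2 : ℚ) * nI ℓ B m κ w i) =
        (-(12 * ((x₁ (κ * w)⁻¹ * x₂ (σ⁻¹ (κ * w))⁻¹ : ℤ) : ℂ) * ((i : ℂ))⁻¹) + ℓ * (z : ℂ)) *
          nI ℓ B m κ w i := by
      push_cast
      field_simp
      ring
    rw [e]
    exact mul_mem (add_mem (neg_mem (mul_mem (mul_mem h12 (rr_int (M := M) _).1)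
      (inv_nat_RM hp hM hi'))) (mul_mem hlM (rl_rm hM hz))) (hnI i)

end Pool.Agent.PP.SD.H16
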